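import Pool.Agent.H317.GI.Stm

/-!
# Project GI, task NRM: normalizing a unipotent cyclic subgroup of `SL_3(ℤ)`
-/

set_option autoImplicit false

namespace Pool.Agent.H178.GI

open Matrix Polynomial Pool.Agent.H317.GR Pool.Agent.H317.GH Pool.Agent.H317.GI

theorem poly_pow (n : ℕ) : ∃ (C : ℤ) (q : ℤ[X]), 2 * C = (n : ℤ) ^ 2 - n ∧
    (1 + X : ℤ[X]) ^ n = 1 + (n : ℤ[X]) * X + (C : ℤ[X]) * X ^ 2 + X ^ 3 * q := by
  induction n with
  | zero => exact ⟨0, 0, by simp, by simp⟩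
  | succ n ih =>
    obtain ⟨C, q, hC, hq⟩ := ih
    refine ⟨C + n, (C : ℤ[X]) + q * (1 + X), by push_cast; linarith, ?_⟩
    rw [pow_succ, hq]
    push_cast
    ring

theorem log_pow (u : Matrix (Fin 3) (Fin 3) ℤ) (hu : u ^ 3 = 0) (n : ℕ) :
    2 * ((1 + u) ^ n - 1) - ((1 + u) ^ n - 1) ^ 2 = (n : Matrix (Fin 3) (Fin 3) ℤ) * (2 * u - u ^ 2) := by
  obtain ⟨C, q, hC, hq⟩ := poly_pow n
  have hCX : (2 : ℤ[X]) * (C : ℤ[X]) = (n : ℤ[X]) ^ 2 - n := by
    exact_mod_cast congrArg (Int.cast : ℤ → ℤ[X]) hC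
  have e2 : (2 : ℤ[X]) * ((1 + X : ℤ[X]) ^ n - 1) - ((1 + X : ℤ[X]) ^ n - 1) ^ 2
      = (n : ℤ[X]) * (2 * X - X ^ 2) + X ^ 3 * (2 * q - 2 * (n : ℤ[X]) * (C : ℤ[X])
        - 2 * (n : ℤ[X]) * X * q - (C : ℤ[X]) ^ 2 * X
        - 2 * (C : ℤ[X]) * X ^ 2 * q - X ^ 3 * q ^ 2) := by
    rw [hq]
    linear_combination X ^ 2 * hCX
  have h := congrArg (aeval u) e2
  rw [map_add, map_mul _ (X ^ 3), map_pow _ X 3, aeval_X, hu, zero_mul, add_zero] at h
  have h2 : (aeval u) (2 : ℤ[X]) = 2 := map_ofNat _ 2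
  simpa [h2] using h

theorem v_mul (x y : SZ 3) : (x * y).val = x.val * y.val := Matrix.SpecialLinearGroup.coe_mul x y

theorem v_one : (1 : SZ 3).val = 1 := Matrix.SpecialLinearGroup.coe_one

theorem v_pow (x : SZ 3) (n : ℕ) : (x ^ n).val = x.val ^ n := Matrix.SpecialLinearGroup.coe_pow x n

/-- the logarithm (times two) of a power -/
theorem log_zpow (z : SZ 3) (h : (z.val - 1) ^ 3 = 0) (m : ℤ) :
    2 * ((z ^ m).val - 1) - ((z ^ m).val - 1) ^ 2
      = m • (2 * (z.val - 1) - (z.val - 1) ^ 2) := by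
  obtain ⟨u, hu⟩ : ∃ u, u = z.val - 1 := ⟨_, rfl⟩
  have hz : z.val = 1 + u := by rw [hu]; abel
  rw [← hu] at h ⊢
  obtain ⟨n, rfl | rfl⟩ := Int.eq_nat_or_neg m
  · rw [zpow_natCast, v_pow, hz, log_pow u h, natCast_zsmul, nsmul_eq_mul]
  · have h1 : (1 + u) * (1 + (-u + u ^ 2)) = 1 := by
      have h2 : (1 + u) * (1 + (-u + u ^ 2)) = 1 + u ^ 3 := by noncomm_ring
      rw [h2, h, add_zero]
    have h3 : (z⁻¹).val = 1 + (-u + u ^ 2) := by
      have h4 : (z⁻¹).val * z.val = 1 := by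
        rw [← v_mul, inv_mul_cancel, v_one]
      calc (z⁻¹).val = (z⁻¹).val * ((1 + u) * (1 + (-u + u ^ 2))) := by rw [h1, mul_one]
        _ = ((z⁻¹).val * z.val) * (1 + (-u + u ^ 2)) := by rw [hz, mul_assoc]
        _ = 1 + (-u + u ^ 2) := by rw [h4, one_mul]
    have h5 : (-u + u ^ 2) ^ 3 = 0 := by
      have h6 : (-u + u ^ 2) ^ 3 = u ^ 3 * (-1 + u) ^ 3 := by noncomm_ring
      rw [h6, h, zero_mul]
    have h7 : 2 * (-u + u ^ 2) - (-u + u ^ 2) ^ 2 = -(2 * u - u ^ 2) := by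
      have h8 : 2 * (-u + u ^ 2) - (-u + u ^ 2) ^ 2 = -(2 * u - u ^ 2) + u ^ 3 * (2 - u) := by
        noncomm_ring
      rw [h8, h, zero_mul, add_zero]
    rw [_root_.zpow_neg, ← _root_.inv_zpow, zpow_natCast, v_pow, h3, log_pow _ h5, h7,
      neg_zsmul, natCast_zsmul, nsmul_eq_mul, mul_neg]

/-- the gcd of the entries -/
def gc (M : Matrix (Fin 3) (Fin 3) ℤ) : ℤ :=
  Finset.univ.gcd fun p : Fin 3 × Fin 3 => M p.1 p.2

theorem gc_dvd (S M T : Matrix (Fin 3) (Fin 3) ℤ) : gc M ∣ gc (S * M * T) := by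
  refine Finset.dvd_gcd fun p _ => ?_
  rw [Matrix.mul_apply]
  refine Finset.dvd_sum fun k _ => Dvd.dvd.mul_right ?_ _
  rw [Matrix.mul_apply]
  refine Finset.dvd_sum fun l _ => Dvd.dvd.mul_left ?_ _
  exact Finset.gcd_dvd (f := fun p : Fin 3 × Fin 3 => M p.1 p.2) (Finset.mem_univ (l, k))

theorem gc_smul (a : ℤ) (M : Matrix (Fin 3) (Fin 3) ℤ) : gc (a • M) = normalize a * gc M := by
  unfold gc
  rw [← Finset.gcd_mul_left]
  rfl

theorem gc_ne (M : Matrix (Fin 3) (Fin 3) ℤ) (h : M ≠ 0) : gc M ≠ 0 := by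
  intro h0
  apply h
  unfold gc at h0
  rw [Finset.gcd_eq_zero_iff] at h0
  ext i j
  exact h0 (i, j) (Finset.mem_univ _)

theorem nrm : S_NRM := by
  intro z s a b hz ha hb hab
  obtain ⟨u, hu⟩ : ∃ u, u = z.val - 1 := ⟨_, rfl⟩
  have hzv : z.val = 1 + u := by rw [hu]; abel
  obtain ⟨S, hS⟩ : ∃ S, S = s.val := ⟨_, rfl⟩
  obtain ⟨T, hT⟩ : ∃ T, T = (s⁻¹).val := ⟨_, rfl⟩
  have hST : S * T = 1 := by
    rw [hS, hT, ← v_mul, mul_inv_cancel, v_one]
  have hTS : T * S = 1 := by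
    rw [hS, hT, ← v_mul, inv_mul_cancel, v_one]
  have hu3 : u ^ 3 = 0 := by rw [hu]; exact hz
  have hc : (s * z * s⁻¹).val - 1 = S * u * T := by
    rw [v_mul, v_mul, ← hS, ← hT, hzv, mul_add, add_mul,
      mul_one, hST]
    abel
  have hc2 : (S * u * T) ^ 2 = S * u ^ 2 * T := by
    calc (S * u * T) ^ 2 = S * u * (T * S) * u * T := by noncomm_ring
      _ = S * u ^ 2 * T := by rw [hTS]; noncomm_ring
  have hc3 : (S * u * T) ^ 3 = 0 := by
    calc (S * u * T) ^ 3 = S * u * (T * S) * u * (T * S) * u * T := by noncomm_ring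
      _ = S * u ^ 3 * T := by rw [hTS]; noncomm_ring
      _ = 0 := by rw [hu3, mul_zero, zero_mul]
  obtain ⟨L, hL⟩ : ∃ L, L = 2 * u - u ^ 2 := ⟨_, rfl⟩
  have e1 := log_zpow (s * z * s⁻¹) (by rw [hc]; exact hc3) a
  have e2 := log_zpow z hz b
  rw [hab, e2, hc, hc2, ← hu, ← hL] at e1
  have e3 : 2 * (S * u * T) - S * u ^ 2 * T = S * L * T := by
    rw [hL]; noncomm_ring
  rw [e3] at e1
  -- `e1 : b • L = a • (S * L * T)`
  have hcomm : S ^ 2 * L = L * S ^ 2 := by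
    by_cases hL0 : L = 0
    · rw [hL0, mul_zero, zero_mul]
    · have hg := gc_ne L hL0
      have h1 : gc L ∣ gc (S * L * T) := gc_dvd S L T
      have h2 : gc (S * L * T) ∣ gc L := by
        have h3 := gc_dvd T (S * L * T) S
        have h4 : T * (S * L * T) * S = L := by
          calc T * (S * L * T) * S = (T * S) * L * (T * S) := by noncomm_ring
            _ = L := by rw [hTS, one_mul, mul_one]
        rwa [h4] at h3
      have h5 : (gc (S * L * T)).natAbs = (gc L).natAbs :=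
        Nat.dvd_antisymm (Int.natAbs_dvd_natAbs.2 h2) (Int.natAbs_dvd_natAbs.2 h1)
      have h6 := congrArg gc e1
      rw [gc_smul, gc_smul] at h6
      have h7 := congrArg Int.natAbs h6
      rw [Int.natAbs_mul, Int.natAbs_mul, h5] at h7
      have h8 : (normalize b).natAbs = (normalize a).natAbs :=
        Nat.eq_of_mul_eq_mul_right (Int.natAbs_pos.2 hg) h7
      have h9 : b.natAbs = a.natAbs := by
        rw [← Int.abs_eq_normalize, ← Int.abs_eq_normalize, Int.natAbs_abs, Int.natAbs_abs] at h8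
        exact h8
      rcases Int.natAbs_eq_natAbs_iff.1 h9 with h10 | h10
      · rw [h10] at e1
        have h11 : L = S * L * T := smul_right_injective _ ha e1
        have h12 : L * S = S * L := by
          calc L * S = S * L * T * S := by rw [← h11]
            _ = S * L := by rw [mul_assoc (S * L), hTS, mul_one]
        calc S ^ 2 * L = S * (S * L) := by rw [pow_two, mul_assoc]
          _ = S * (L * S) := by rw [h12]
          _ = S * L * S := by rw [mul_assoc]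
          _ = L * S * S := by rw [h12]
          _ = L * S ^ 2 := by rw [pow_two, mul_assoc]
      · rw [h10, neg_smul, ← smul_neg] at e1
        have h11 : -L = S * L * T := smul_right_injective _ ha e1
        have h12 : -(L * S) = S * L := by
          calc -(L * S) = S * L * T * S := by rw [← h11, neg_mul]
            _ = S * L := by rw [mul_assoc (S * L), hTS, mul_one]
        calc S ^ 2 * L = S * (S * L) := by rw [pow_two, mul_assoc]
          _ = S * (-(L * S)) := by rw [h12]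
          _ = -(S * L * S) := by rw [mul_neg, mul_assoc]
          _ = -(-(L * S) * S) := by rw [h12]
          _ = L * S ^ 2 := by rw [neg_mul, neg_neg, pow_two, mul_assoc]
  have h8u : 4 * L + L ^ 2 = (8 : ℤ) • u := by
    have h1 : 4 * L + L ^ 2 = (8 : ℤ) • u + u ^ 3 * (u - 4) := by
      rw [hL]; noncomm_ring
    rw [h1, hu3, zero_mul, add_zero]
  have hcomm8 : (8 : ℤ) • (S ^ 2 * u) = (8 : ℤ) • (u * S ^ 2) := by
    rw [← mul_smul_comm, ← smul_mul_assoc, ← h8u]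
    have h1 : S ^ 2 * L ^ 2 = L ^ 2 * S ^ 2 := by
      calc S ^ 2 * L ^ 2 = S ^ 2 * L * L := by rw [pow_two L, mul_assoc]
        _ = L * S ^ 2 * L := by rw [hcomm]
        _ = L * (S ^ 2 * L) := by rw [mul_assoc]
        _ = L * (L * S ^ 2) := by rw [hcomm]
        _ = L ^ 2 * S ^ 2 := by rw [pow_two L, mul_assoc]
    rw [mul_add, add_mul, h1]
    congr 1
    calc S ^ 2 * (4 * L) = 4 * (S ^ 2 * L) := by noncomm_ring
      _ = 4 * L * S ^ 2 := by rw [hcomm, mul_assoc]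
  have hfin : S ^ 2 * u = u * S ^ 2 :=
    smul_right_injective _ (by norm_num : (8 : ℤ) ≠ 0) hcomm8
  apply Subtype.ext
  change (s ^ 2 * z).val = (z * s ^ 2).val
  rw [v_mul, v_mul, v_pow, ← hS, hzv,
    mul_add, add_mul, mul_one, one_mul, hfin]

end Pool.Agent.H178.GI
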